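import Pool.Agent.W739.CY.Stm

/-! Project CY, part VR. -/

set_option autoImplicit false

namespace Pool.Agent.W977.CY

open Finset Pool.Agent.W739.CY

section spl

variable {C : Type}

theorem spl_congr : ∀ (w : List C) (f g : List C → C → List C → ℝ),
    (∀ v c u, v ++ c :: u = w → f v c u = g v c u) → spl f w = spl g w
  | [], _, _, _ => rfl
  | x :: w, f, g, h => by
    show f [] x w + spl (fun v c u => f (x :: v) c u) w =
      g [] x w + spl (fun v c u => g (x :: v) c u) w
    rw [h [] x w rfl, spl_congr w _ (fun v c u => g (x :: v) c u) fun v c u e => ?_]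
    exact h (x :: v) c u (by rw [List.cons_append, e])

theorem spl_add : ∀ (w : List C) (f g : List C → C → List C → ℝ),
    spl (fun v c u => f v c u + g v c u) w = spl f w + spl g w
  | [], _, _ => (add_zero (0 : ℝ)).symm
  | x :: w, f, g => by
    show f [] x w + g [] x w + spl (fun v c u => f (x :: v) c u + g (x :: v) c u) w =
      f [] x w + spl (fun v c u => f (x :: v) c u) w +
        (g [] x w + spl (fun v c u => g (x :: v) c u) w)
    rw [spl_add w (fun v c u => f (x :: v) c u) (fun v c u => g (x :: v) c u)]
    ring

theorem spl_mul (z : ℝ) : ∀ (w : List C) (f : List C → C → List C → ℝ),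
    spl (fun v c u => z * f v c u) w = z * spl f w
  | [], _ => (mul_zero z).symm
  | x :: w, f => by
    show z * f [] x w + spl (fun v c u => z * f (x :: v) c u) w =
      z * (f [] x w + spl (fun v c u => f (x :: v) c u) w)
    rw [spl_mul z w (fun v c u => f (x :: v) c u)]
    ring

theorem spl_zero (w : List C) (f : List C → C → List C → ℝ)
    (h : ∀ v c u, v ++ c :: u = w → f v c u = 0) : spl f w = 0 := by
  rw [spl_congr w f (fun v c u => 0 * f v c u) fun v c u e => by rw [h v c u e, zero_mul],
    spl_mul, zero_mul]

/-- exchange of the deleted and the marked letter -/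
theorem spl_spl (p : ℝ) : ∀ (w : List C) (g : List C → C → List C → ℝ),
    spl (fun v _ u => p ^ u.length * spl g (v ++ u)) w =
      spl (fun V c U => spl (fun U1 _ U2 => p ^ U2.length * g V c (U1 ++ U2)) U +
        spl (fun V1 _ V2 => p ^ (V2.length + 1 + U.length) * g (V1 ++ V2) c U) V) w
  | [], _ => rfl
  | x :: w, g => by
    have hL : spl (fun v _ u => p ^ u.length * spl g (v ++ u)) (x :: w) =
        p ^ w.length * spl g w + (spl (fun v _ u => p ^ u.length * g [] x (v ++ u)) w +
          spl (fun v _ u => p ^ u.length * spl (fun v' c u' => g (x :: v') c u') (v ++ u)) w) := by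
      rw [← spl_add]
      show p ^ w.length * spl g w + spl (fun v _ u => p ^ u.length * spl g (x :: (v ++ u))) w = _
      congr 1
      refine spl_congr w _ _ fun v c u _ => ?_
      show p ^ u.length * (g [] x (v ++ u) + spl (fun v' c u' => g (x :: v') c u') (v ++ u)) = _
      ring
    have hR : spl (fun V c U => spl (fun U1 _ U2 => p ^ U2.length * g V c (U1 ++ U2)) U +
        spl (fun V1 _ V2 => p ^ (V2.length + 1 + U.length) * g (V1 ++ V2) c U) V) (x :: w) =
        spl (fun U1 _ U2 => p ^ U2.length * g [] x (U1 ++ U2)) w +
          (p ^ w.length * spl g w +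
          spl (fun V c U => spl (fun U1 _ U2 => p ^ U2.length * g (x :: V) c (U1 ++ U2)) U +
        spl (fun V1 _ V2 => p ^ (V2.length + 1 + U.length) * g (x :: (V1 ++ V2)) c U) V) w) := by
      rw [← spl_mul, ← spl_add]
      show spl (fun U1 _ U2 => p ^ U2.length * g [] x (U1 ++ U2)) w + 0 +
        spl (fun V c U => spl (fun U1 _ U2 => p ^ U2.length * g (x :: V) c (U1 ++ U2)) U +
          (p ^ (V.length + 1 + U.length) * g V c U +
          spl (fun V1 _ V2 => p ^ (V2.length + 1 + U.length) * g (x :: (V1 ++ V2)) c U) V)) w = _
      rw [add_zero]
      congr 1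
      refine spl_congr w _ _ fun V c U e => ?_
      have e1 : w.length = V.length + 1 + U.length := by
        rw [← e, List.length_append, List.length_cons]
        ring
      rw [e1]
      ring
    rw [hL, hR, spl_spl p w (fun v' c u' => g (x :: v') c u')]
    ring

theorem Pr_split [DecidableEq C] (b : Option C) (c : C) (u : List C) : ∀ (v : List C)
    (a : Option C), Pr a (v ++ c :: u) b ↔ Pr a v (some c) ∧ Pr (some c) u b
  | [], _ => Iff.rfl
  | x :: v, a => by
    show ok a (some x) ∧ Pr (some x) (v ++ c :: u) b ↔
      (ok a (some x) ∧ Pr (some x) v (some c)) ∧ Pr (some c) u b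
    rw [Pr_split b c u v (some x), and_assoc]

theorem Pr_none_cons [DecidableEq C] (b : Option C) (x : C) (w : List C) :
    Pr none (x :: w) b ↔ Pr (some x) w b := by
  show ok none (some x) ∧ Pr (some x) w b ↔ Pr (some x) w b
  exact ⟨fun h => h.2, fun h => ⟨Or.inl rfl, h⟩⟩

end spl

section main

variable {C : Type} [DecidableEq C]

/-- the correction term -/
noncomputable def gg (p : ℝ) (y : C) (b : Option C) (v : List C) (c : C) (u : List C) : ℝ :=
  if c = y then p ^ v.length / (1 - p ^ (v.length + 1)) * F p none v (some y) *
    F p (some y) u b else 0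

/-- the deletion sum of the correction -/
theorem del_gg (hDEL : S_DEL) (p : ℝ) (hp : Good p) (y : C) (b : Option C) (x : C) (w : List C)
    (hw : Pr none (x :: w) b) :
    spl (fun v _ u => p ^ u.length * spl (gg p y b) (v ++ u)) (x :: w) =
      (1 - p ^ (w.length + 1)) * spl (gg p y b) (x :: w) -
        (if x = y then p ^ w.length * F p (some y) w b else 0) := by
  have key : ∀ (V : List C) (c : C) (U : List C), V ++ c :: U = x :: w →
      spl (fun U1 _ U2 => p ^ U2.length * gg p y b V c (U1 ++ U2)) U +
        spl (fun V1 _ V2 => p ^ (V2.length + 1 + U.length) * gg p y b (V1 ++ V2) c U) V =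
      (1 - p ^ (w.length + 1)) * gg p y b V c U -
        (if V = [] ∧ c = y then p ^ w.length * F p (some y) w b else 0) := by
    intro V c U e
    have hlen : w.length = V.length + U.length := by
      have h1 := congrArg List.length e
      rw [List.length_append, List.length_cons, List.length_cons] at h1
      omega
    by_cases hc : c = y
    · subst hc
      have hpr : Pr none V (some c) ∧ Pr (some c) U b := by
        rw [← Pr_split, e]
        exact hw
      have h1 : spl (fun U1 _ U2 => p ^ U2.length * gg p c b V c (U1 ++ U2)) U =
          p ^ V.length / (1 - p ^ (V.length + 1)) * F p none V (some c) *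
            ((1 - p ^ U.length) * F p (some c) U b) := by
        rcases U with _ | ⟨u0, U⟩
        · show (0 : ℝ) = _
          simp
        · rw [(hDEL C p hp (some c) b).2.2.2.1 (u0 :: U) (List.cons_ne_nil _ _) hpr.2, ← spl_mul]
          refine spl_congr _ _ _ fun U1 d U2 _ => ?_
          unfold gg
          rw [if_pos rfl]
          ring
      have h2 : spl (fun V1 _ V2 => p ^ (V2.length + 1 + U.length) * gg p c b (V1 ++ V2) c U) V =
          if V = [] then 0 else p ^ (V.length + U.length) * F p none V (some c) *
            F p (some c) U b := by
        rcases V with _ | ⟨v0, V⟩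
        · rw [if_pos rfl]
          rfl
        · rw [if_neg (List.cons_ne_nil _ _)]
          have h3 := (hDEL C p hp none (some c)).2.2.2.1 (v0 :: V) (List.cons_ne_nil _ _) hpr.1
          have h4 : F p none (v0 :: V) (some c) = (1 - p ^ (v0 :: V).length)⁻¹ *
              spl (fun v _ u => p ^ u.length * F p none (v ++ u) (some c)) (v0 :: V) := by
            rw [← h3, ← mul_assoc, inv_mul_cancel₀ (by rw [List.length_cons]; exact hp.sub _),
              one_mul]
          rw [h4, ← spl_mul, ← spl_mul, mul_comm, ← spl_mul]
          refine spl_congr _ _ _ fun V1 d V2 e2 => ?_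
          have h5 : (V1 ++ V2).length = V.length := by
            have h6 := congrArg List.length e2
            rw [List.length_append, List.length_cons, List.length_cons] at h6
            rw [List.length_append]
            omega
          unfold gg
          rw [if_pos rfl, h5, List.length_cons, div_eq_mul_inv]
          ring
      rw [h1, h2]
      unfold gg
      rw [if_pos rfl, hlen]
      by_cases hV : V = []
      · subst hV
        have h7 : c = x ∧ U = w := by
          rw [List.nil_append] at e
          exact ⟨(List.cons.inj e).1, (List.cons.inj e).2⟩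
        obtain ⟨rfl, rfl⟩ := h7
        have h8 : F p none ([] : List C) (some c) = 1 := by
          rw [(hDEL C p hp none (some c)).1]
          exact if_pos (show ok none (some c) from Or.inl rfl)
        rw [if_pos rfl, if_pos ⟨rfl, rfl⟩, h8, List.length_nil]
        have h9 := hp.sub 0
        field_simp
        ring
      · rw [if_neg hV, if_neg fun h => hV h.1]
        have h9 := hp.sub V.length
        field_simp
        ring
    · have h1 : gg p y b V c U = 0 := if_neg hc
      rw [h1, mul_zero, if_neg fun h => hc h.2, sub_zero,
        spl_zero U _ fun U1 d U2 _ => by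
          show p ^ U2.length * gg p y b V c (U1 ++ U2) = 0
          unfold gg
          rw [if_neg hc, mul_zero],
        spl_zero V _ fun V1 d V2 _ => by
          show p ^ (V2.length + 1 + U.length) * gg p y b (V1 ++ V2) c U = 0
          unfold gg
          rw [if_neg hc, mul_zero], add_zero]
  rw [spl_spl, spl_congr (x :: w) _ _ key]
  have hsub : spl (fun V c U => (1 - p ^ (w.length + 1)) * gg p y b V c U -
      (if V = [] ∧ c = y then p ^ w.length * F p (some y) w b else 0)) (x :: w) =
      (1 - p ^ (w.length + 1)) * spl (gg p y b) (x :: w) +
      spl (fun V c _ => -(if V = [] ∧ c = y then p ^ w.length * F p (some y) w b else 0))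
        (x :: w) := by
    rw [← spl_mul, ← spl_add]
    refine spl_congr _ _ _ fun V c U _ => ?_
    ring
  rw [hsub]
  have hlast : spl (fun V c (_ : List C) =>
      -(if V = [] ∧ c = y then p ^ w.length * F p (some y) w b else 0)) (x :: w) =
      -(if x = y then p ^ w.length * F p (some y) w b else 0) := by
    show -(if ([] : List C) = [] ∧ x = y then p ^ w.length * F p (some y) w b else 0) +
      spl (fun V c (_ : List C) =>
        -(if x :: V = [] ∧ c = y then p ^ w.length * F p (some y) w b else 0)) w = _
    rw [spl_zero w _ fun V c U _ => by
      rw [if_neg fun h => List.cons_ne_nil _ _ h.1, neg_zero], add_zero]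
    simp only [true_and]
  rw [hlast]
  ring

theorem vr_main (hDEL : S_DEL) (p : ℝ) (hp : Good p) (y : C) (b : Option C)
    (hab : ok (some y) b) : ∀ (m : ℕ) (w : List C), w.length = m →
    F p none w b - F p (some y) w b = spl (gg p y b) w := by
  intro m
  induction m with
  | zero =>
    intro w hw
    rw [List.length_eq_zero_iff] at hw
    subst hw
    rw [(hDEL C p hp none b).1, (hDEL C p hp (some y) b).1,
      if_pos (show ok none b from Or.inl rfl), if_pos hab, sub_self]
    rfl
  | succ m ih =>
    intro w hw
    rcases w with _ | ⟨x, w⟩
    · simp at hw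
    have hwm : w.length = m := by
      rw [List.length_cons] at hw
      omega
    by_cases hpr : Pr none (x :: w) b
    · have hne : (1 - p ^ (w.length + 1)) ≠ 0 := hp.sub _
      have h1 := (hDEL C p hp none b).2.2.2.1 (x :: w) (List.cons_ne_nil _ _) hpr
      rw [List.length_cons] at h1
      have h2 := del_gg hDEL p hp y b x w hpr
      have h3 : spl (fun v _ u => p ^ u.length * F p none (v ++ u) b) (x :: w) =
          spl (fun v _ u => p ^ u.length * F p (some y) (v ++ u) b) (x :: w) +
          spl (fun v _ u => p ^ u.length * spl (gg p y b) (v ++ u)) (x :: w) := by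
        rw [← spl_add]
        refine spl_congr _ _ _ fun v c u e => ?_
        rw [← ih (v ++ u) (by
          have h4 := congrArg List.length e
          rw [List.length_append, List.length_cons, List.length_cons] at h4
          rw [List.length_append]
          omega)]
        ring
      by_cases hxy : x = y
      · subst hxy
        have h5 : F p (some x) (x :: w) b = 0 := by
          refine (hDEL C p hp (some x) b).2.1 _ fun h => ?_
          rcases h.1 with h6 | h6
          · exact absurd h6 (by simp)
          · exact h6 rfl
        have h6 : spl (fun v _ u => p ^ u.length * F p (some x) (v ++ u) b) (x :: w) =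
            p ^ w.length * F p (some x) w b := by
          show p ^ w.length * F p (some x) w b +
            spl (fun v _ u => p ^ u.length * F p (some x) (x :: (v ++ u)) b) w = _
          rw [spl_zero w _ fun v c u _ => by
            rw [(hDEL C p hp (some x) b).2.1 (x :: (v ++ u)) fun h => by
              rcases h.1 with h6 | h6
              · exact absurd h6 (by simp)
              · exact h6 rfl, mul_zero], add_zero]
        rw [if_pos rfl] at h2
        rw [h3, h2, h6] at h1
        rw [h5, sub_zero]
        apply mul_left_cancel₀ hne
        rw [h1]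
        ring
      · have hpra : Pr (some y) (x :: w) b :=
          ⟨Or.inr fun h => hxy (Option.some.inj h).symm, hpr.2⟩
        have h5 := (hDEL C p hp (some y) b).2.2.2.1 (x :: w) (List.cons_ne_nil _ _) hpra
        rw [List.length_cons] at h5
        rw [if_neg hxy, sub_zero] at h2
        apply mul_left_cancel₀ hne
        rw [mul_sub, h1, h5, h3, h2]
        ring
    · rw [(hDEL C p hp none b).2.1 _ hpr,
        (hDEL C p hp (some y) b).2.1 (x :: w) (fun h => hpr ((Pr_none_cons b x w).2 h.2)),
        sub_zero]
      symm
      refine spl_zero _ _ fun v c u e => ?_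
      unfold gg
      by_cases hc : c = y
      · subst hc
        rw [if_pos rfl]
        by_cases hv : Pr none v (some c)
        · rw [(hDEL C p hp (some c) b).2.1 u fun h => hpr (by
            rw [← e, Pr_split]
            exact ⟨hv, h⟩), mul_zero]
        · rw [(hDEL C p hp none (some c)).2.1 v hv]
          ring
      · rw [if_neg hc]

end main

theorem t_VR (hDEL : S_DEL) : S_VR := by
  intro C _ p hp a b w hab
  rcases a with _ | y
  · rw [spl_zero w _ fun v c u _ => if_neg (by simp), sub_zero]
  · have h1 := vr_main hDEL p hp y b hab w.length w rfl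
    have h2 : spl (fun v c u => if some c = some y then
        p ^ v.length / (1 - p ^ (v.length + 1)) * F p none v (some y) * F p (some y) u b
          else 0) w = spl (gg p y b) w := by
      refine spl_congr w _ _ fun v c u _ => ?_
      unfold gg
      refine if_congr ?_ rfl rfl
      rw [Option.some.injEq]
    rw [h2, ← h1]
    ring

end Pool.Agent.W977.CY
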